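import Pool.Agent.MP_c1891a_nt.G58.LocA

/-
Row Loc: the exponential equations cut the dimension.
-/

namespace Pool.Agent.MP_c1891a_nt.G43

open Finset Filter Module
open scoped NNReal

theorem loc_eval {K A : Type} [NormedField K] [NormedCommRing A] [NormedAlgebra K A] {σ : Type}
    (φ : A →ₐ[K] K) (Y : σ → A) (p : MvPolynomial σ K) :
    φ (MvPolynomial.aeval Y p) = MvPolynomial.eval (fun i => φ (Y i)) p := by
  rw [← MvPolynomial.coe_aeval_eq_eval, ← AlgHom.comp_apply, MvPolynomial.comp_aeval]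
  rfl

/-- the normalisation gives the approximation property. -/
theorem loc_low {K A : Type} [NontriviallyNormedField K] [IsUltrametricDist K]
    [NormedCommRing A] [NormedAlgebra K A] [IsUltrametricDist A] {d n e : ℕ}
    (Y Y' : Fin d → A) (hY : IsTate K Y) (hY' : IsTate K Y') (hn : n ≤ d)
    (U : Fin d → Fin d → ℤ) (hU : ∀ i, Y' i = ∑ j, U i j • Y j) (G : Fin e → A)
    (hG : ∀ k, ‖G k‖ ≤ 1) (Z : Set (Fin d → K)) (φ : (Fin d → K) → A →ₐ[K] K)
    (hφ : ∀ y ∈ Z, (∀ i, φ y (Y i) = y i) ∧ ∀ a, ‖φ y a‖ ≤ ‖a‖)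
    (hb : ∀ a : A, ∃ b : Fin e → A, (∀ k, b k ∈ TS K Y' n ∧ ‖b k‖ ≤ ‖a‖) ∧
      ∀ y ∈ Z, φ y (a - ∑ k, b k * G k) = 0) : Low Z n e := by
  refine ⟨fun i => U (Fin.castLE hn i), fun k y => φ y (G k),
    fun k y hy => ((hφ y hy).2 _).trans (hG k), ?_⟩
  intro p hp η hη
  obtain ⟨b, hb1, hb2⟩ := hb (MvPolynomial.aeval Y p)
  have ha : ‖MvPolynomial.aeval Y p‖ ≤ 1 := by
    have h1 : ‖MvPolynomial.aeval Y p‖₊ ≤ 1 := by rw [hY.1]; exact hp
    exact_mod_cast h1
  have hη' : 0 < min η 1 := lt_min hη one_pos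
  choose q hq using fun k => loc_approx Y' hn (hb1 k).1 hη'
  refine ⟨q, fun k => ?_, fun y hy => ?_⟩
  · rw [← loc_norm_aeval hY' hn]
    have h1 : ‖MvPolynomial.aeval (fun i : Fin n => Y' (Fin.castLE hn i)) (q k)‖ ≤ 1 := by
      have h2 : MvPolynomial.aeval (fun i : Fin n => Y' (Fin.castLE hn i)) (q k) =
          b k + -(b k - MvPolynomial.aeval (fun i : Fin n => Y' (Fin.castLE hn i)) (q k)) := by
        ring
      rw [h2]
      refine (IsUltrametricDist.norm_add_le_max _ _).trans (max_le ((hb1 k).2.trans ha) ?_)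
      rw [norm_neg]
      exact (hq k).le.trans (min_le_right _ _)
    exact_mod_cast h1
  · have h1 : MvPolynomial.eval y p = φ y (MvPolynomial.aeval Y p) := by
      rw [loc_eval]
      congr 2
      ext i
      exact ((hφ y hy).1 i).symm
    have h2 : ∀ k, MvPolynomial.eval (fun i => ∑ l, (U (Fin.castLE hn i) l : K) * y l) (q k) =
        φ y (MvPolynomial.aeval (fun i : Fin n => Y' (Fin.castLE hn i)) (q k)) := by
      intro k
      rw [loc_eval]
      congr 2
      ext i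
      rw [hU, map_sum]
      refine Finset.sum_congr rfl fun l _ => ?_
      rw [map_zsmul, (hφ y hy).1, zsmul_eq_mul]
    have h3 := hb2 y hy
    rw [map_sub, sub_eq_zero, map_sum] at h3
    simp only [h2]
    rw [h1, h3, ← Finset.sum_sub_distrib]
    refine IsUltrametricDist.norm_sum_le_of_forall_le_of_nonneg hη.le fun k _ => ?_
    rw [map_mul, ← sub_mul, ← map_sub, norm_mul]
    calc _ ≤ η * 1 := mul_le_mul (((hφ y hy).2 _).trans ((hq k).le.trans (min_le_left _ _)))
          (((hφ y hy).2 _).trans (hG k)) (norm_nonneg _) hη.le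
      _ = η := mul_one η

theorem loc_norm_int {K : Type} [NormedField K] [IsUltrametricDist K] (z : ℤ) :
    ‖(z : K)‖ ≤ 1 := IsUltrametricDist.norm_intCast_le_one K z

theorem sLoc (h1 : STate) (h2 : STMul) (h3 : STPt) (h4 : STDer) (h5 : SNorm) (h6 : SExp)
    (h7 : SDerExt) (h8 : SInj) (h9 : SKO) : SLoc := by
  classical
  intro K _ _ _ _ d k 𝔭 σ ι J I c m κ r Z y₀ hUK h𝔭 hk hσ hr0 hr1 hZ hy₀ hu
  haveI : CharZero K := ⟨fun a b hab => by
    by_contra hne
    wlog hlt : a < b generalizing a b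
    · exact this (a := b) (b := a) hab.symm (Ne.symm hne) (by omega)
    have h := hUK (b - a) (by omega)
    rw [Nat.cast_sub hlt.le, hab, sub_self, norm_zero] at h
    exact zero_ne_one h⟩
  obtain ⟨A, _, _, _, _, Y, hY⟩ := h1 K d
  obtain ⟨hone, hmul⟩ := h2 K A d Y hY
  have hφex : ∀ y : Fin d → K, ∃ φ : A →ₐ[K] K,
      y ∈ Z → (∀ i, φ (Y i) = y i) ∧ ∀ a, ‖φ a‖ ≤ ‖a‖ := by
    intro y
    by_cases hy : y ∈ Z
    · obtain ⟨φ, hφ⟩ := h3 K A d Y hY y (hZ y hy).1
      exact ⟨φ, fun _ => hφ⟩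
    · obtain ⟨φ, _⟩ := h3 K A d Y hY y₀ (hZ y₀ hy₀).1
      exact ⟨φ, fun h => absurd h hy⟩
  choose φ hφ using hφex
  let IZ : Ideal A :=
    { carrier := {a | ∀ y ∈ Z, φ y a = 0}
      add_mem' := fun ha hb y hy => by rw [map_add, ha y hy, hb y hy, add_zero]
      zero_mem' := fun y _ => map_zero _
      smul_mem' := fun x a ha y hy => by rw [smul_eq_mul, map_mul, ha y hy, mul_zero] }
  have hIZ : ∀ a, a ∈ IZ ↔ ∀ y ∈ Z, φ y a = 0 := fun _ => Iff.rfl
  have hIZtop : IZ ≠ ⊤ := by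
    rw [Ideal.ne_top_iff_one, hIZ]
    intro h
    have := h y₀ hy₀
    rw [map_one] at this
    exact one_ne_zero this
  obtain ⟨U, Y', n, e, G, hU, hY', hn, hIB, hG, hb, hP⟩ := h5 K A d Y hUK hY IZ hIZtop
  refine ⟨n, e, ?_, loc_low Y Y' hY hY' hn U hU G hG Z φ hφ hb⟩
  by_contra hkn
  have hkn : k ≤ n := not_lt.1 hkn
  haveI : Nontrivial A := ⟨⟨1, 0, fun h => by
    rw [h, norm_zero] at hone; exact zero_ne_one hone⟩⟩
  haveI : NoZeroDivisors A := ⟨fun {a b} h => by
    have := hmul a b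
    rw [h, norm_zero] at this
    rcases mul_eq_zero.1 this.symm with h | h
    · exact Or.inl (norm_eq_zero.1 h)
    · exact Or.inr (norm_eq_zero.1 h)⟩
  haveI : IsDomain A := NoZeroDivisors.to_isDomain A
  obtain ⟨F, _, _, π, hπI, hπB⟩ := loc_field K A (TS K Y' n) IZ hIB
  choose D hD hDn using h4 K A d Y' hY'
  choose D' hD' using fun i => loc_ext h7 K A F π (TS K Y' n) hπB (D i)
  have hchain : ∀ i : Fin d, (i : ℕ) < n → ∀ a,
      D' i (π a) = ∑ l, π (D l a) * D' i (π (Y' l)) := fun i hi a =>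
    loc_chain Y' π IZ hπI D hD hDn i hi (D' i) (hD' i) hP a
  obtain ⟨ex0, exA⟩ := h6 K A hUK
  obtain ⟨_, exK⟩ := h6 K K hUK
  have hDex : ∀ i : Fin d, (i : ℕ) < n → ∀ a, ‖a‖ < 1 →
      D' i (π (ex K a)) = π (ex K a) * D' i (π a) := by
    intro i hi a ha
    rw [hchain i hi, hchain i hi a, Finset.mul_sum]
    refine Finset.sum_congr rfl fun l _ => ?_
    rw [(exA a ha).2.2.1 (D l) (hDn l), map_mul, mul_assoc]
  -- the map from the coordinate ring
  have hφev : ∀ y ∈ Z, ∀ p, φ y (MvPolynomial.aeval Y p) = MvPolynomial.eval y p := by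
    intro y hy p
    rw [loc_eval]
    congr 2
    ext i
    exact (hφ y hy).1 i
  haveI := h𝔭
  let ψ : (MvPolynomial (Fin d) K ⧸ 𝔭) →ₐ[K] F :=
    Ideal.Quotient.liftₐ 𝔭 (π.comp (MvPolynomial.aeval Y)) fun p hp =>
      hπI _ fun y hy => (hφev y hy p).trans ((hZ y hy).2.1 p hp)
  have hψ : ∀ p, ψ (Ideal.Quotient.mk 𝔭 p) = π (MvPolynomial.aeval Y p) := fun _ => rfl
  let z : Fin n → MvPolynomial (Fin d) K ⧸ 𝔭 := fun i =>
    Ideal.Quotient.mk 𝔭 (∑ j, U (Fin.castLE hn i) j • MvPolynomial.X j)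
  have hz : ∀ i, ψ (z i) = π (Y' (Fin.castLE hn i)) := by
    intro i
    rw [hψ, hU, map_sum]
    congr 1
    refine Finset.sum_congr rfl fun j _ => ?_
    rw [map_zsmul, MvPolynomial.aeval_X]
  have hind : AlgebraicIndependent K fun i => ψ (z i) := by
    rw [algebraicIndependent_iff]
    intro q hq
    apply loc_gn_eq_zero
    rw [← loc_norm_aeval hY' hn, nnnorm_eq_zero]
    refine hπB _ (loc_aeval_mem Y' hn q) ?_
    rw [← AlgHom.comp_apply, MvPolynomial.comp_aeval, ← hq]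
    simp only [hz]
  have hdep : ∀ y : Fin (n + 1) → MvPolynomial (Fin d) K ⧸ 𝔭, ¬ AlgebraicIndependent K y := by
    intro y hy
    have e1 := hy.cardinalMk_le_trdeg
    rw [← hσ.cardinalMk_eq_trdeg, Cardinal.mk_fin, Cardinal.mk_fin] at e1
    have : n + 1 ≤ k := by exact_mod_cast e1
    omega
  obtain ⟨hψinj, halg⟩ := h8 K _ F ψ n z hind hdep
  -- the linear forms
  let P : ι → MvPolynomial (Fin d) K := fun i =>
    MvPolynomial.C r * ∑ l, MvPolynomial.C (m i l : K) * MvPolynomial.X l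
  let L : ι → A := fun i => MvPolynomial.aeval Y (P i)
  let ℓ : ι → (Fin d → K) → K := fun i y => r * ∑ l, (m i l : K) * y l
  have hPev : ∀ i y, MvPolynomial.eval y (P i) = ℓ i y := by
    intro i y
    simp [P, ℓ]
  have hLeq : ∀ i, L i = r • ∑ l, (m i l : K) • Y l := by
    intro i
    simp [L, P, Algebra.smul_def]
  have hYn : ∀ l, ‖Y l‖ ≤ 1 := by
    intro l
    have e1 := hY.1 (MvPolynomial.X l)
    rw [MvPolynomial.aeval_X] at e1
    have e2 : ‖Y l‖₊ ≤ 1 := by
      rw [e1]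
      refine Finset.sup_le fun α _ => ?_
      rw [MvPolynomial.coeff_X']
      split_ifs <;> simp
    exact_mod_cast e2
  have hLn : ∀ i, ‖L i‖ < 1 := by
    intro i
    rw [hLeq, norm_smul]
    have : ‖∑ l, (m i l : K) • Y l‖ ≤ 1 :=
      IsUltrametricDist.norm_sum_le_of_forall_le_of_nonneg zero_le_one fun l _ => by
        rw [norm_smul]
        exact mul_le_one₀ (loc_norm_int _) (norm_nonneg _) (hYn l)
    exact lt_of_le_of_lt (mul_le_of_le_one_right (norm_nonneg _) this) hr1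
  have hφL : ∀ y ∈ Z, ∀ i, φ y (L i) = ℓ i y := fun y hy i => by
    rw [hφev y hy, hPev]
  have hℓn : ∀ i, ‖ℓ i y₀‖ < 1 := fun i => by
    rw [← hφL y₀ hy₀]
    exact lt_of_le_of_lt ((hφ y₀ hy₀).2 _) (hLn i)
  have hEne : ∀ i, π (ex K (L i)) ≠ 0 := by
    intro i h0
    have e1 := (exA (L i) (hLn i)).1 (-L i) (by rw [norm_neg]; exact hLn i)
    rw [add_neg_cancel, ex0] at e1
    have e2 := congrArg π e1
    rw [map_one, map_mul, h0, zero_mul] at e2
    exact one_ne_zero e2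
  have hsubn : ∀ {X : Type} [NormedAddCommGroup X] [IsUltrametricDist X] (a b : X),
      ‖a‖ < 1 → ‖b‖ < 1 → ‖a - b‖ < 1 := by
    intro X _ _ a b ha hb
    rw [sub_eq_add_neg]
    refine lt_of_le_of_lt (IsUltrametricDist.norm_add_le_max _ _) (max_lt ha ?_)
    rwa [norm_neg]
  have hofn : ∀ x : K, ‖Algebra.ofId K A x‖ ≤ ‖x‖ := by
    intro x
    show ‖algebraMap K A x‖ ≤ ‖x‖
    rw [Algebra.algebraMap_eq_smul_one, norm_smul, hone, mul_one]
  -- the classes vanish at the point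
  have hcls : ∀ j, ∀ i₀ ∈ I.filter (fun i => κ i = j),
      ∑ i ∈ (I.filter fun i => κ i = j) with
        π (L i) - π (L i₀) ∈ Set.range (algebraMap K F), c i * ex K (ℓ i y₀) = 0 := by
    intro j i₀ hi₀
    have e1 := h9 K F ι n (fun i => ψ (z i)) (fun i => D' (Fin.castLE hn i))
      (I.filter fun i => κ i = j) (fun i => π (L i)) (fun i => π (ex K (L i))) c ?_ ?_ ?_ i₀ hi₀
    · have e2 : ∀ i ∈ (I.filter fun i => κ i = j).filter
          (fun i => π (L i) - π (L i₀) ∈ Set.range (algebraMap K F)),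
          c i • π (ex K (L i)) =
            π (ex K (L i₀)) * algebraMap K F (c i * ex K (ℓ i y₀ - ℓ i₀ y₀)) := by
        intro i hi
        obtain ⟨t, ht⟩ := (Finset.mem_filter.1 hi).2
        have e3 : ψ (Ideal.Quotient.mk 𝔭 (P i - P i₀ - MvPolynomial.C t)) = 0 := by
          rw [hψ, map_sub, map_sub, map_sub, map_sub, MvPolynomial.aeval_C, π.commutes, ht]
          exact sub_self _
        have e4 : P i - P i₀ - MvPolynomial.C t ∈ 𝔭 :=
          Ideal.Quotient.eq_zero_iff_mem.1 (hψinj (by rw [e3, map_zero]))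
        have e5 := (hZ y₀ hy₀).2.1 _ e4
        rw [map_sub, map_sub, hPev, hPev, MvPolynomial.eval_C, sub_eq_zero] at e5
        rw [e5]
        have htn : ‖t‖ < 1 := by rw [← e5]; exact hsubn _ _ (hℓn i) (hℓn i₀)
        have htn' : ‖algebraMap K A t‖ < 1 := lt_of_le_of_lt (hofn t) htn
        have hhn : ‖L i - L i₀ - algebraMap K A t‖ < 1 :=
          hsubn _ _ (hsubn _ _ (hLn i) (hLn i₀)) htn'
        have hh0 : π (L i - L i₀ - algebraMap K A t) = 0 := by
          rw [map_sub, map_sub, π.commutes, ht, sub_self]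
        have e6 : L i = L i₀ + (algebraMap K A t + (L i - L i₀ - algebraMap K A t)) := by ring
        have e7 : ‖algebraMap K A t + (L i - L i₀ - algebraMap K A t)‖ < 1 :=
          lt_of_le_of_lt (IsUltrametricDist.norm_add_le_max _ _) (max_lt htn' hhn)
        obtain ⟨b, hb⟩ := (exA _ hhn).2.1
        have e8 : ex K (algebraMap K A t) = algebraMap K A (ex K t) :=
          ((exK t htn).2.2.2 A (Algebra.ofId K A) hofn).symm
        have e9 : π (ex K (L i)) = π (ex K (L i₀)) * algebraMap K F (ex K t) := by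
          conv_lhs => rw [e6]
          rw [(exA _ (hLn i₀)).1 _ e7, (exA _ htn').1 _ hhn, hb, e8, map_mul, map_mul, map_add,
            map_mul, hh0, π.commutes, map_one, zero_mul, add_zero, mul_one]
        rw [e9, Algebra.smul_def, map_mul]
        ring
      rw [Finset.sum_congr rfl e2, ← Finset.mul_sum, ← map_sum] at e1
      have e3 := (mul_eq_zero.1 e1).resolve_left (hEne i₀)
      rw [map_eq_zero] at e3
      have e4 : ∀ i, c i * ex K (ℓ i y₀) =
          ex K (ℓ i₀ y₀) * (c i * ex K (ℓ i y₀ - ℓ i₀ y₀)) := by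
        intro i
        have e5 := (exK _ (hℓn i₀)).1 _ (hsubn _ _ (hℓn i) (hℓn i₀))
        rw [add_sub_cancel] at e5
        rw [e5]; ring
      simp only [e4]
      rw [← Finset.mul_sum, e3, mul_zero]
    · intro i j'
      rw [hz, hD' _ _ (loc_Y_mem Y' j'.2), hD]
      by_cases h : j' = i
      · rw [if_pos h, if_pos (by rw [h]), map_one]
      · rw [if_neg h, if_neg (fun h' => h (Fin.castLE_injective hn h')), map_zero]
    · intro i _
      exact ⟨loc_alg ψ hψinj z (Ideal.Quotient.mk 𝔭 (P i)) (halg _), hEne i,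
        fun l => hDex _ l.2 _ (hLn i)⟩
    · have e2 : ∑ i ∈ I with κ i = j, c i • ex K (L i) ∈ IZ := by
        intro y hy
        rw [map_sum, ← (hZ y hy).2.2 j]
        refine Finset.sum_congr rfl fun i _ => ?_
        rw [map_smul, (exA _ (hLn i)).2.2.2 K (φ y) (hφ y hy).2, hφL y hy, smul_eq_mul]
      have e3 := hπI _ e2
      rw [map_sum] at e3
      simpa only [map_smul] using e3
  -- the rational subspace
  let V : Submodule ℚ (Fin d → ℚ) :=
    { carrier := {μ | ∑ l, (μ l : K) • π (Y l) ∈ Set.range (algebraMap K F)}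
      add_mem' := by
        rintro a b ⟨s, hs⟩ ⟨t, ht⟩
        refine ⟨s + t, ?_⟩
        rw [map_add, hs, ht, ← Finset.sum_add_distrib]
        refine Finset.sum_congr rfl fun l _ => ?_
        rw [Pi.add_apply, Rat.cast_add, add_smul]
      zero_mem' := ⟨0, by simp⟩
      smul_mem' := by
        rintro q a ⟨s, hs⟩
        refine ⟨(q : K) * s, ?_⟩
        rw [map_mul, hs, ← Algebra.smul_def, Finset.smul_sum]
        refine Finset.sum_congr rfl fun l _ => ?_
        rw [Pi.smul_apply, smul_eq_mul, Rat.cast_mul, mul_smul] }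
  have hV : ∀ μ, μ ∈ V ↔ ∑ l, (μ l : K) • π (Y l) ∈ Set.range (algebraMap K F) :=
    fun _ => Iff.rfl
  let i0 : Fin d := ⟨0, by omega⟩
  have hi0 : (i0 : ℕ) < n := by show 0 < n; omega
  have hnot : (fun l => (U i0 l : ℚ)) ∉ V := by
    rw [hV]
    rintro ⟨t, ht⟩
    have e1 : π (Y' i0) = algebraMap K F t := by
      rw [ht, hU, map_sum]
      refine Finset.sum_congr rfl fun l _ => ?_
      rw [map_zsmul, Rat.cast_intCast, Int.cast_smul_eq_zsmul]
    have e2 := hD' i0 _ (loc_Y_mem Y' hi0)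
    rw [e1, Derivation.map_algebraMap, hD, if_pos rfl, map_one] at e2
    exact zero_ne_one e2
  obtain ⟨u, hu0, huV⟩ := loc_u V _ hnot
  obtain ⟨j, t, hne⟩ := hu u hu0
  apply hne
  let R : Setoid ι :=
    { r := fun a b => π (L a) - π (L b) ∈ Set.range (algebraMap K F)
      iseqv :=
        { refl := fun a => ⟨0, by rw [map_zero, sub_self]⟩
          symm := by
            rintro a b ⟨s, hs⟩
            exact ⟨-s, by rw [map_neg, hs, neg_sub]⟩
          trans := by
            rintro a b c' ⟨s, hs⟩ ⟨s', hs'⟩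
            exact ⟨s + s', by rw [map_add, hs, hs', sub_add_sub_cancel]⟩ } }
  have hR : ∀ a b, R a b ↔ π (L a) - π (L b) ∈ Set.range (algebraMap K F) := fun _ _ => Iff.rfl
  refine Finset.sum_cancels_of_partition_cancels R fun x hx => ?_
  obtain ⟨hxI, hxj, hxt⟩ := Finset.mem_filter.1 hx
  rw [← hcls j x (Finset.mem_filter.2 ⟨hxI, hxj⟩)]
  refine Finset.sum_congr ?_ fun _ _ => rfl
  ext a
  simp only [Finset.mem_filter, hR]
  constructor
  · rintro ⟨⟨e1, e2, _⟩, e3⟩
    exact ⟨⟨e1, e2⟩, e3⟩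
  · rintro ⟨⟨e1, e2⟩, s, hs⟩
    refine ⟨⟨e1, e2, ?_⟩, s, hs⟩
    have e3 : (fun l => ((m a l - m x l : ℤ) : ℚ)) ∈ V := by
      rw [hV]
      refine ⟨r⁻¹ * s, ?_⟩
      rw [map_mul, hs, hLeq, hLeq, map_smul, map_smul, ← smul_sub, ← Algebra.smul_def, smul_smul,
        inv_mul_cancel₀ hr0, one_smul, map_sum, map_sum, ← Finset.sum_sub_distrib]
      refine Finset.sum_congr rfl fun l _ => ?_
      rw [map_smul, map_smul, ← sub_smul, Rat.cast_intCast, Int.cast_sub]
    have e4 := huV (fun l => m a l - m x l) e3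
    simp only [mul_sub, Finset.sum_sub_distrib] at e4
    rw [← hxt]
    exact sub_eq_zero.1 e4

end Pool.Agent.MP_c1891a_nt.G43
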