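import Pool.Agent.MP_c1891a_nt.G43.SpecA

/-
Row Loc, part A: auxiliary lemmas.
-/

namespace Pool.Agent.MP_c1891a_nt.G43

open Finset Filter Module
open scoped NNReal

theorem loc_gn_rename {K : Type} [NormedField K] {n d : ℕ} (f : Fin n → Fin d)
    (hf : Function.Injective f) (q : MvPolynomial (Fin n) K) :
    gn (MvPolynomial.rename f q) = gn q := by
  classical
  unfold gn
  rw [MvPolynomial.support_rename_of_injective hf, Finset.sup_image]
  refine Finset.sup_congr rfl fun α _ => ?_
  simp only [Function.comp]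
  rw [MvPolynomial.coeff_rename_mapDomain f hf]

theorem loc_gn_eq_zero {K σ : Type} [NormedField K] (q : MvPolynomial σ K) (h : gn q = 0) :
    q = 0 := by
  by_contra hq
  obtain ⟨α, hα⟩ := MvPolynomial.support_nonempty.2 hq
  have h1 : ‖q.coeff α‖₊ ≤ gn q := Finset.le_sup (f := fun α => ‖q.coeff α‖₊) hα
  rw [h] at h1
  exact (MvPolynomial.mem_support_iff.1 hα) (nnnorm_eq_zero.1 (le_antisymm h1 (zero_le)))

section

variable {K A : Type} [NormedField K] [NormedCommRing A] [NormedAlgebra K A] {d n : ℕ}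

theorem loc_image (Y : Fin d → A) (hn : n ≤ d) :
    Y '' {i | (i : ℕ) < n} = Set.range fun i : Fin n => Y (Fin.castLE hn i) := by
  ext a
  constructor
  · rintro ⟨i, hi, rfl⟩
    exact ⟨⟨i, hi⟩, rfl⟩
  · rintro ⟨i, rfl⟩
    exact ⟨Fin.castLE hn i, i.2, rfl⟩

theorem loc_norm_aeval {Y : Fin d → A} (hY : IsTate K Y) (hn : n ≤ d)
    (q : MvPolynomial (Fin n) K) :
    ‖MvPolynomial.aeval (fun i : Fin n => Y (Fin.castLE hn i)) q‖₊ = gn q := by
  rw [← loc_gn_rename (Fin.castLE hn) (Fin.castLE_injective hn) q, ← hY.1,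
    MvPolynomial.aeval_rename]
  rfl

theorem loc_aeval_mem (Y : Fin d → A) (hn : n ≤ d) (q : MvPolynomial (Fin n) K) :
    MvPolynomial.aeval (fun i : Fin n => Y (Fin.castLE hn i)) q ∈ TS K Y n := by
  apply Subalgebra.le_topologicalClosure
  rw [loc_image Y hn, Algebra.adjoin_range_eq_range_aeval]
  exact ⟨q, rfl⟩

theorem loc_approx (Y : Fin d → A) (hn : n ≤ d) {b : A} (hb : b ∈ TS K Y n) {η : ℝ}
    (hη : 0 < η) : ∃ q : MvPolynomial (Fin n) K,
      ‖b - MvPolynomial.aeval (fun i : Fin n => Y (Fin.castLE hn i)) q‖ < η := by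
  have hb' : b ∈ closure ((Algebra.adjoin K (Y '' {i | (i : ℕ) < n}) : Subalgebra K A) : Set A) :=
    hb
  obtain ⟨x, hx, hxb⟩ := Metric.mem_closure_iff.1 hb' η hη
  rw [loc_image Y hn, Algebra.adjoin_range_eq_range_aeval] at hx
  obtain ⟨q, rfl⟩ := hx
  exact ⟨q, by rwa [dist_eq_norm] at hxb⟩

theorem loc_Y_mem (Y : Fin d → A) {l : Fin d} (hl : (l : ℕ) < n) : Y l ∈ TS K Y n :=
  Subalgebra.le_topologicalClosure _ (Algebra.subset_adjoin ⟨l, hl, rfl⟩)

theorem loc_kill (Y : Fin d → A) (D : Derivation K A A) (hD : ∀ a, ‖D a‖ ≤ ‖a‖)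
    (h0 : ∀ l : Fin d, (l : ℕ) < n → D (Y l) = 0) {b : A} (hb : b ∈ TS K Y n) : D b = 0 := by
  have hc : Continuous D := by
    refine AddMonoidHomClass.continuous_of_bound D 1 fun a => ?_
    rw [one_mul]; exact hD a
  have hb' : b ∈ closure ((Algebra.adjoin K (Y '' {i | (i : ℕ) < n}) : Subalgebra K A) : Set A) :=
    hb
  have hcl : IsClosed {a : A | D a = 0} := isClosed_eq hc continuous_const
  refine hcl.closure_subset_iff.2 ?_ hb'
  intro a ha
  induction ha using Algebra.adjoin_induction with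
  | mem x hx => obtain ⟨l, hl, rfl⟩ := hx; exact h0 l hl
  | algebraMap r => exact D.map_algebraMap r
  | add x y _ _ hx hy =>
    have hx' : D x = 0 := hx
    have hy' : D y = 0 := hy
    show D (x + y) = 0
    rw [map_add, hx', hy', add_zero]
  | mul x y _ _ hx hy =>
    have hx' : D x = 0 := hx
    have hy' : D y = 0 := hy
    show D (x * y) = 0
    rw [Derivation.leibniz, hx', hy', smul_zero, smul_zero, add_zero]

end

/-- a field quotient, injective on a subalgebra. -/
theorem loc_field (K A : Type) [Field K] [CommRing A] [IsDomain A] [Algebra K A]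
    (B : Subalgebra K A) (I : Ideal A) (h : ∀ b ∈ B, b ∈ I → b = 0) :
    ∃ (F : Type) (_ : Field F) (_ : Algebra K F) (π : A →ₐ[K] F),
      (∀ a ∈ I, π a = 0) ∧ ∀ b ∈ B, π b = 0 → b = 0 := by
  let S : Submonoid A :=
    { carrier := {a | a ∈ B ∧ a ≠ 0}
      mul_mem' := fun ha hb => ⟨B.mul_mem ha.1 hb.1, mul_ne_zero ha.2 hb.2⟩
      one_mem' := ⟨B.one_mem, one_ne_zero⟩ }
  have hd : Disjoint (I : Set A) S := by
    rw [Set.disjoint_left]
    intro a ha hS
    exact hS.2 (h a hS.1 ha)
  obtain ⟨q, hq, hIq, hqS⟩ := Ideal.exists_le_prime_disjoint I S hd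
  haveI := hq
  refine ⟨FractionRing (A ⧸ q), inferInstance, inferInstance,
    (IsScalarTower.toAlgHom K (A ⧸ q) (FractionRing (A ⧸ q))).comp (Ideal.Quotient.mkₐ K q),
    ?_, ?_⟩
  · intro a ha
    have : Ideal.Quotient.mk q a = 0 := Ideal.Quotient.eq_zero_iff_mem.2 (hIq ha)
    simp [this]
  · intro b hb h0
    by_contra hb0
    have h1 : algebraMap (A ⧸ q) (FractionRing (A ⧸ q)) (Ideal.Quotient.mk q b) = 0 := h0
    have h2 : Ideal.Quotient.mk q b = 0 :=
      (IsFractionRing.injective (A ⧸ q) (FractionRing (A ⧸ q))) (by rw [h1, map_zero])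
    exact Set.disjoint_left.1 hqS (Ideal.Quotient.eq_zero_iff_mem.1 h2) ⟨hb, hb0⟩

/-- extension of a derivation along a map that is injective on a subalgebra. -/
theorem loc_ext (h7 : SDerExt) (K A F : Type) [Field K] [CharZero K] [CommRing A] [Algebra K A]
    [Field F] [Algebra K F] (π : A →ₐ[K] F) (B : Subalgebra K A)
    (hB : ∀ b ∈ B, π b = 0 → b = 0) (D : Derivation K A A) :
    ∃ D' : Derivation K F F, ∀ b ∈ B, D' (π b) = π (D b) := by
  letI : Algebra B F := ((π.comp B.val : B →ₐ[K] F) : B →+* F).toAlgebra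
  have hal : ∀ b : B, algebraMap B F b = π b := fun _ => rfl
  haveI : IsScalarTower K B F := IsScalarTower.of_algebraMap_eq fun x => by
    rw [hal]
    exact (π.commutes x).symm
  have hinj : Function.Injective (algebraMap B F) := by
    rw [injective_iff_map_eq_zero]
    intro b hb
    exact Subtype.ext (hB b b.2 hb)
  let L : B →ₗ[K] F := π.toLinearMap ∘ₗ (D : A →ₗ[K] A) ∘ₗ B.val.toLinearMap
  have hL : ∀ b : B, L b = π (D b) := fun _ => rfl
  let D₀ : Derivation K B F := Derivation.mk' L fun a b => by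
    rw [hL, hL, hL, Algebra.smul_def, Algebra.smul_def, hal, hal]
    have : ((a * b : B) : A) = (a : A) * (b : A) := rfl
    rw [this, Derivation.leibniz, smul_eq_mul, smul_eq_mul, map_add, map_mul, map_mul]
  obtain ⟨D', hD'⟩ := h7 K B F hinj D₀
  exact ⟨D', fun b hb => hD' ⟨b, hb⟩⟩

/-- an integer vector that kills a proper rational subspace. -/
theorem loc_u {d : ℕ} (V : Submodule ℚ (Fin d → ℚ)) (v : Fin d → ℚ) (hv : v ∉ V) :
    ∃ u : Fin d → ℤ, u ≠ 0 ∧ ∀ μ : Fin d → ℤ, (fun l => (μ l : ℚ)) ∈ V → ∑ l, u l * μ l = 0 := by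
  obtain ⟨f, hfv, hf⟩ := Submodule.exists_le_ker_of_notMem hv
  have hexp : ∀ x : Fin d → ℚ, f x = ∑ l, x l * f (Pi.single l 1) := by
    intro x
    conv_lhs => rw [← Finset.univ_sum_single x]
    rw [map_sum]
    refine Finset.sum_congr rfl fun l _ => ?_
    rw [← smul_eq_mul, ← map_smul]
    congr 1
    ext j
    by_cases h : j = l
    · subst h; simp
    · simp [h]
  obtain ⟨b, hb⟩ := IsLocalization.exist_integer_multiples_of_finite (nonZeroDivisors ℤ)
    (fun l : Fin d => f (Pi.single l 1))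
  choose u hu using hb
  have hb0 : ((b : ℤ) : ℚ) ≠ 0 := by
    exact_mod_cast nonZeroDivisors.ne_zero b.2
  have hu' : ∀ l, (u l : ℚ) = (b : ℤ) * f (Pi.single l 1) := fun l => by
    have := hu l
    simpa using this
  refine ⟨u, ?_, ?_⟩
  · intro h0
    apply hfv
    rw [hexp]
    refine Finset.sum_eq_zero fun l _ => ?_
    have := hu' l
    rw [h0] at this
    have h2 : f (Pi.single l 1) = 0 := by
      rcases mul_eq_zero.1 this.symm with h | h
      · exact absurd h hb0
      · exact h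
    rw [h2, mul_zero]
  · intro μ hμ
    have h1 : f (fun l => (μ l : ℚ)) = 0 := hf hμ
    rw [hexp] at h1
    have h2 : ((∑ l, u l * μ l : ℤ) : ℚ) = (b : ℤ) * ∑ l, (μ l : ℚ) * f (Pi.single l 1) := by
      push_cast
      rw [Finset.mul_sum]
      refine Finset.sum_congr rfl fun l _ => ?_
      rw [hu']; ring
    rw [h1, mul_zero] at h2
    exact_mod_cast h2

/-- algebraic elements are mapped to algebraic elements. -/
theorem loc_alg {K R F : Type} [Field K] [CommRing R] [Field F] [Algebra K R] [Algebra K F]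
    (ψ : R →ₐ[K] F) (hψ : Function.Injective ψ) {n : ℕ} (z : Fin n → R) (a : R)
    (ha : IsAlgebraic (Algebra.adjoin K (Set.range z)) a) :
    IsAlgebraic (Algebra.adjoin K (Set.range fun i => ψ (z i))) (ψ a) := by
  have hmem : ∀ x ∈ Algebra.adjoin K (Set.range z),
      ψ x ∈ Algebra.adjoin K (Set.range fun i => ψ (z i)) := by
    intro x hx
    have h1 : ψ x ∈ (Algebra.adjoin K (Set.range z)).map ψ := ⟨x, hx, rfl⟩
    rw [AlgHom.map_adjoin, ← Set.range_comp] at h1
    exact h1
  let f : Algebra.adjoin K (Set.range z) →ₐ[K] Algebra.adjoin K (Set.range fun i => ψ (z i)) :=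
    (ψ.comp (Subalgebra.val _)).codRestrict _ fun x => hmem x x.2
  refine ha.ringHom_of_comp_eq f ψ ?_ ?_
  · intro x y hxy
    have : ψ x = ψ y := congrArg Subtype.val hxy
    exact Subtype.ext (hψ this)
  · ext x
    rfl

/-- the chain rule. -/
theorem loc_chain {K A F : Type} [NormedField K] [NormedCommRing A] [NormedAlgebra K A]
    [Field F] [Algebra K F] {d n : ℕ} (Y : Fin d → A) (π : A →ₐ[K] F) (I : Ideal A)
    (hI : ∀ a ∈ I, π a = 0) (D : Fin d → Derivation K A A)
    (hD : ∀ i j, D i (Y j) = if j = i then 1 else 0) (hDn : ∀ i a, ‖D i a‖ ≤ ‖a‖)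
    (i : Fin d) (hi : (i : ℕ) < n) (D' : Derivation K F F)
    (hD' : ∀ b ∈ TS K Y n, D' (π b) = π (D i b))
    (hP : ∀ a : A, ∃ p ∈ TP K Y n, a - p ∈ Ideal.span {w | w ∈ I ∧ w ∈ TP K Y n}) (a : A) :
    D' (π a) = ∑ l, π (D l a) * D' (π (Y l)) := by
  classical
  set E : A → F := fun a => ∑ l, π (D l a) * D' (π (Y l)) with hE
  have Eadd : ∀ x y, E (x + y) = E x + E y := fun x y => by
    simp only [hE, map_add, add_mul, Finset.sum_add_distrib]
  have Emul : ∀ x y, E (x * y) = π x * E y + π y * E x := fun x y => by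
    simp only [hE, Derivation.leibniz, smul_eq_mul, map_add, map_mul, add_mul,
      Finset.sum_add_distrib, Finset.mul_sum, mul_assoc]
  have hTP : ∀ p ∈ TP K Y n, D' (π p) = E p := by
    intro p hp
    induction hp using Algebra.adjoin_induction with
    | mem x hx =>
      rcases hx with hx | ⟨j, rfl⟩
      · rw [hD' x hx]
        simp only [hE]
        rw [Finset.sum_eq_single i]
        · rw [hD' _ (loc_Y_mem Y hi), hD, if_pos rfl, map_one, mul_one]
        · intro l _ hl
          by_cases hln : (l : ℕ) < n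
          · rw [hD' _ (loc_Y_mem Y hln), hD, if_neg hl, map_zero, mul_zero]
          · rw [loc_kill Y (D l) (hDn l) (fun j hj => ?_) hx, map_zero, zero_mul]
            rw [hD, if_neg]
            rintro rfl
            exact hln hj
        · intro h; exact absurd (Finset.mem_univ _) h
      · simp only [hE]
        rw [Finset.sum_eq_single j]
        · rw [hD, if_pos rfl, map_one, one_mul]
        · intro l _ hl
          rw [hD, if_neg (Ne.symm hl), map_zero, zero_mul]
        · intro h; exact absurd (Finset.mem_univ _) h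
    | algebraMap r =>
      rw [π.commutes, D'.map_algebraMap]
      simp only [hE, Derivation.map_algebraMap, map_zero, zero_mul, Finset.sum_const_zero]
    | add x y _ _ hx hy => rw [map_add, map_add, hx, hy, Eadd]
    | mul x y _ _ hx hy =>
      rw [map_mul, Derivation.leibniz, hx, hy, Emul, smul_eq_mul, smul_eq_mul]
  have hsp : ∀ w ∈ Ideal.span {w | w ∈ I ∧ w ∈ TP K Y n}, π w = 0 ∧ E w = 0 := by
    intro w hw
    induction hw using Submodule.span_induction with
    | mem x hx =>
      refine ⟨hI x hx.1, ?_⟩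
      rw [← hTP x hx.2, hI x hx.1, map_zero]
    | zero => exact ⟨map_zero _, by simp [hE]⟩
    | add x y _ _ hx hy => exact ⟨by rw [map_add, hx.1, hy.1, add_zero],
        by rw [Eadd, hx.2, hy.2, add_zero]⟩
    | smul x y _ hy => exact ⟨by rw [smul_eq_mul, map_mul, hy.1, mul_zero],
        by rw [smul_eq_mul, Emul, hy.1, hy.2, mul_zero, zero_mul, add_zero]⟩
  obtain ⟨p, hp, hap⟩ := hP a
  obtain ⟨h1, h2⟩ := hsp _ hap
  have ha : a = p + (a - p) := by ring
  have h3 : π a = π p := by rw [ha, map_add, h1, add_zero]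
  show D' (π a) = E a
  rw [h3, hTP p hp, ha, Eadd, h2, add_zero]

end Pool.Agent.MP_c1891a_nt.G43
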